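import Pool.Agent.P.MP_bdc337_an.SI.Six
import Pool.Agent.P.MP_bdc337_an.SI.Eight
import Pool.Agent.P.MP_bdc337_an.SI.Nine
import Pool.Agent.P.MP_bdc337_an.SI.Ten

set_option autoImplicit false

namespace Pool.Agent.Results.MP_bdc337_an.FiveToTen

/-- `f` is analytic and univalent in the unit disc, `f 0 = 0`, `f' 0 = 1`, and
`|arg (z f'(z) / f(z))| < α π / 2` for `z ≠ 0` in the disc (at `z = 0` the quotient is `1`). -/
def StronglyStarlike (α : ℝ) (f : ℂ → ℂ) : Prop :=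
  DifferentiableOn ℂ f (Metric.ball 0 1) ∧ Set.InjOn f (Metric.ball 0 1) ∧ f 0 = 0 ∧
    deriv f 0 = 1 ∧
    ∀ z ∈ Metric.ball (0 : ℂ) 1, z ≠ 0 → |Complex.arg (z * deriv f z / f z)| < α * Real.pi / 2

/-- Explicit polynomials, used for `5 ≤ n ≤ 10`; they depend on `t` only for odd `n`. -/
noncomputable def E (n : ℕ) (α t : ℝ) : ℝ :=
  if n = 5 then
    α * (9 * α * (1 - t) ^ 2 + (9 - 21 * α + 60 * α ^ 2) * t * (1 - t)
      + (7 * α + 38 * α ^ 3) * t ^ 2) / 9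
  else if n = 6 then 2 * α * (1 + 20 * α ^ 2 + 54 * α ^ 4) / 25
  else if n = 7 then
    α * (225 * (1 + 8 * α ^ 2) * (1 - t) ^ 3
      + 45 * (-30 + 196 * α - 277 * α ^ 2 + 442 * α ^ 3) * t * (1 - t) ^ 2
      + 15 * (135 - 446 * α + 1294 * α ^ 2 - 1021 * α ^ 3 + 1829 * α ^ 4) * t ^ 2 * (1 - t)
      + (719 * α + 5105 * α ^ 3 + 8351 * α ^ 5) * t ^ 3) / 2025
  else if n = 8 then 2 * α * (2025 + 43757 * α ^ 2 + 166565 * α ^ 4 + 184553 * α ^ 6) / 99225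
  else if n = 9 then
    α * ((5 * α + 13 * α ^ 3) / 18 * (1 - t) ^ 4
      + (315 - 1104 * α + 3133 * α ^ 2 - 3118 * α ^ 3 + 3670 * α ^ 4) / 315 * t * (1 - t) ^ 3
      + (-1890 + 10533 * α - 21089 * α ^ 2 + 35785 * α ^ 3 - 25162 * α ^ 4 + 24611 * α ^ 5) / 945
        * t ^ 2 * (1 - t) ^ 2
      + (14175 - 54981 * α + 162950 * α ^ 2 - 195030 * α ^ 3 + 354365 * α ^ 4 - 168759 * α ^ 5
        + 240440 * α ^ 6) / 14175 * t ^ 3 * (1 - t)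
      + (6753 * α + 53851 * α ^ 3 + 131257 * α ^ 5 + 105814 * α ^ 7) / 33075 * t ^ 4)
  else
    2 * α * (33075 + 752984 * α ^ 2 + 3333666 * α ^ 4 + 5737956 * α ^ 6 + 3537694 * α ^ 8) / 2679075

open Pool.Agent.P.MP_bdc337_an in
theorem result (α : ℝ) (h0 : 0 < α) (h1 : α < 1) (n : ℕ) (h5 : 5 ≤ n) (h10 : n ≤ 10) :
    ∃ t ∈ Set.Icc (0 : ℝ) 1, IsMaxOn (E n α) (Set.Icc 0 1) t ∧
      IsGreatest {x : ℝ | ∃ f : ℂ → ℂ, StronglyStarlike α f ∧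
        x = ‖iteratedDeriv n f 0 / (n.factorial : ℂ)‖} (max (2 * α / (n - 1)) (E n α t)) := by
  simp only [← coeff_tay]
  interval_cases n
  · have e : E 5 α = fun t => α / 2 * SI.psi α t := by
      ext t
      simp only [E, SI.psi, if_true]
      ring
    rw [e, show 2 * α / (((5 : ℕ) : ℝ) - 1) = α / 2 by push_cast; ring]
    exact SI.five h0 h1.le
  · rw [show 2 * α / (((6 : ℕ) : ℝ) - 1) = 2 * α / 5 by push_cast; ring]
    exact ⟨0, ⟨le_rfl, zero_le_one⟩, isMaxOn_iff.2 fun _ _ => le_of_eq rfl, SI.six h0 h1.le⟩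
  · rw [show 2 * α / (((7 : ℕ) : ℝ) - 1) = α / 3 by push_cast; ring]
    exact SI.seven h0 h1
  · rw [show 2 * α / (((8 : ℕ) : ℝ) - 1) = 2 * α / 7 by push_cast; ring]
    exact ⟨0, ⟨le_rfl, zero_le_one⟩, isMaxOn_iff.2 fun _ _ => le_of_eq rfl, SI.eight h0 h1⟩
  · rw [show 2 * α / (((9 : ℕ) : ℝ) - 1) = α / 4 by push_cast; ring]
    exact SI.nine h0 h1
  · rw [show 2 * α / (((10 : ℕ) : ℝ) - 1) = 2 * α / 9 by push_cast; ring]
    exact ⟨0, ⟨le_rfl, zero_le_one⟩, isMaxOn_iff.2 fun _ _ => le_of_eq rfl, SI.ten h0 h1⟩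

end Pool.Agent.Results.MP_bdc337_an.FiveToTen
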