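import Pool.Agent.P.MP_bdc337_an.SO.KB

set_option autoImplicit false

namespace Pool.Agent.Results.MP_bdc337_an.KoebeRange

/-- `f` is analytic and univalent in the unit disc, `f 0 = 0`, `f' 0 = 1`, and
`|arg (z f'(z) / f(z))| < α π / 2` for `z ≠ 0` in the disc (at `z = 0` the quotient is `1`). -/
def StronglyStarlike (α : ℝ) (f : ℂ → ℂ) : Prop :=
  DifferentiableOn ℂ f (Metric.ball 0 1) ∧ Set.InjOn f (Metric.ball 0 1) ∧ f 0 = 0 ∧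
    deriv f 0 = 1 ∧
    ∀ z ∈ Metric.ball (0 : ℂ) 1, z ≠ 0 → |Complex.arg (z * deriv f z / f z)| < α * Real.pi / 2

open Pool.Agent.P.MP_bdc337_an in
theorem result : ∃ (c : ℝ) (C : ℝ → ℝ), 0 < c ∧ (∃ B : ℝ, ∀ e, C e ≤ B) ∧
    Filter.Tendsto C (nhdsWithin 0 (Set.Ioi 0)) (nhds 2) ∧
    ∀ α : ℝ, 0 < α → α < 1 → ∃ k : ℂ → ℂ, StronglyStarlike α k ∧
    (∀ z ∈ Metric.ball (0 : ℂ) 1, z * deriv k z = k z * ((1 + z) / (1 - z)) ^ (α : ℂ)) ∧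
    ∀ n : ℕ, 2 ≤ n →
      ((1 - α) * (n : ℝ) ^ (1 - α) ≤ c → ∀ f : ℂ → ℂ, StronglyStarlike α f →
        ‖iteratedDeriv n f 0 / (n.factorial : ℂ)‖ ≤ ‖iteratedDeriv n k 0 / (n.factorial : ℂ)‖) ∧
      (C (1 - α) ≤ (1 - α) * (n : ℝ) ^ (1 - α) → ∃ f : ℂ → ℂ, StronglyStarlike α f ∧
        ‖iteratedDeriv n k 0 / (n.factorial : ℂ)‖ < ‖iteratedDeriv n f 0 / (n.factorial : ℂ)‖) := by
  obtain ⟨C, C1, C2, hC⟩ := SO.kb_all
  refine ⟨1 / (8 * (10 ^ 15) ^ 30) / (2 * 10 ^ 30) ^ 61, C, by positivity, C1, C2,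
    fun α h0 h1 => ?_⟩
  obtain ⟨H, G, hD⟩ := KR.datK h0 h1
  refine ⟨_, hD.star, fun z hz => ?_, fun n hn => ?_⟩
  · rw [(hD.f_deriv hz).deriv,
      Complex.cpow_def_of_ne_zero (div_ne_zero (KR.den_ne hz).2 (KR.den_ne hz).1), KR.qK]
    ring_nf
  · obtain ⟨N, rfl⟩ : ∃ N, n = N + 1 := ⟨n - 1, by omega⟩
    rw [← coeff_tay, KR.coeff_f hD, KR.coeffK hD, Complex.norm_real,
      Real.norm_of_nonneg (KR.Kc_nonneg h0 N)]
    refine ⟨fun h f ⟨a1, a2, a3, a4, a5⟩ => ?_, fun h => ?_⟩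
    · obtain ⟨q, H', G', hD', hf⟩ := UO.exists_dat h0 h1 a1 a2 a3 a4 a5
      have e : f =ᶠ[nhds 0] fun z => z * Complex.exp (G' z) :=
        Filter.mem_of_superset (Metric.ball_mem_nhds 0 one_pos) hf
      rw [e.iteratedDeriv_eq, ← coeff_tay]
      rw [Nat.cast_succ] at h
      exact KR.upperT hD' h0 h1 (by omega) h
    · obtain ⟨q, H', G', hD', hf⟩ := hC α h0 h1 N (by omega) h
      exact ⟨_, hD'.star, by rwa [← coeff_tay]⟩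

end Pool.Agent.Results.MP_bdc337_an.KoebeRange
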