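import Pool.Agent.P.MP_bdc337_an.RR.H2
import Pool.Agent.P.MP_bdc337_an.UB.C

set_option autoImplicit false

namespace Pool.Agent.Results.MP_bdc337_an.LargeNThreshold

/-- `f` is analytic and univalent in the unit disc, `f 0 = 0`, `f' 0 = 1`, and
`|arg (z f'(z) / f(z))| < α π / 2` for `z ≠ 0` in the disc (at `z = 0` the quotient is `1`). -/
def StronglyStarlike (α : ℝ) (f : ℂ → ℂ) : Prop :=
  DifferentiableOn ℂ f (Metric.ball 0 1) ∧ Set.InjOn f (Metric.ball 0 1) ∧ f 0 = 0 ∧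
    deriv f 0 = 1 ∧
    ∀ z ∈ Metric.ball (0 : ℂ) 1, z ≠ 0 → |Complex.arg (z * deriv f z / f z)| < α * Real.pi / 2

theorem result : ∃ (τ : ℕ → ℝ) (t : ℝ), Real.sqrt (2 / 11) ≤ t ∧ t ≤ 181 / 400 ∧
    Filter.Tendsto τ Filter.atTop (nhds t) ∧ (∀ n : ℕ, 2 ≤ n → 1 / 3 ≤ τ n) ∧
    (∀ n : ℕ, 4 ≤ n → Real.sqrt (2 * ((n : ℝ) - 2) / (11 * (n : ℝ) - 10)) ≤ τ n) ∧
    (∀ n : ℕ, 3 ≤ n → τ n < 181 / 400) ∧
    (∀ n : ℕ, 2 ≤ n → ∀ α : ℝ, 0 < α → α < 1 →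
      (IsGreatest {x : ℝ | ∃ f : ℂ → ℂ, StronglyStarlike α f ∧
        x = ‖iteratedDeriv n f 0 / (n.factorial : ℂ)‖} (2 * α / ((n : ℝ) - 1)) ↔ α ≤ τ n)) ∧
    ∀ α : ℝ, t < α → α < 1 → ∃ δ : ℝ, 0 < δ ∧ ∃ n₀ : ℕ, ∀ n : ℕ, n₀ ≤ n →
      ∃ f : ℂ → ℂ, StronglyStarlike α f ∧
        (2 * α + δ) / ((n : ℝ) - 1) ≤ ‖iteratedDeriv n f 0 / (n.factorial : ℂ)‖ := by
  obtain ⟨τ, t, t0, -, hT, hA, hB⟩ := Pool.Agent.P.MP_bdc337_an.LN.thr2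
    (Real.sqrt_pos.2 (by norm_num)) (Real.sqrt_le_one.2 (by norm_num))
    Pool.Agent.P.MP_bdc337_an.RR.Lite.lim
  have hU : ∀ N : ℕ, 2 ≤ N → τ N < 181 / 400 := fun N hN => not_le.1 fun h =>
    Pool.Agent.P.MP_bdc337_an.UB.notEx hN
      ((hA N (by omega) (181 / 400) (by norm_num) (by norm_num)).2 h)
  have t1 : t ≤ 181 / 400 :=
    le_of_tendsto hT (Filter.eventually_atTop.2 ⟨2, fun N hN => (hU N hN).le⟩)
  refine ⟨fun n => τ (n - 1), t, t0, t1, hT.comp (Filter.map_sub_atTop_eq_nat 1).le,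
    fun n hn => (hA (n - 1) (by omega) (1 / 3) (by norm_num) (by norm_num)).1
      (Pool.Agent.P.MP_bdc337_an.LN.ex_third (by omega)),
    fun n hn => (hA (n - 1) (by omega) _ (Pool.Agent.P.MP_bdc337_an.RR.Lite.ex_sqrt hn).1
      (Pool.Agent.P.MP_bdc337_an.RR.Lite.ex_sqrt hn).2.1).1
      (Pool.Agent.P.MP_bdc337_an.RR.Lite.ex_sqrt hn).2.2,
    fun n hn => hU (n - 1) (by omega),
    fun n hn α h0 h1 => ?_, fun α h0 h1 => ?_⟩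
  · obtain ⟨N, rfl⟩ : ∃ N, n = N + 1 := ⟨n - 1, by omega⟩
    have N1 : 1 ≤ N := by omega
    have n0 : (0 : ℝ) < N := by exact_mod_cast N1
    have e : ((N + 1 : ℕ) : ℝ) - 1 = N := by push_cast; ring
    rw [e]
    refine Iff.trans ?_ (hA N N1 α h0 h1)
    constructor
    · intro hg q H G h
      have k := hg.2 ⟨_, h.star, rfl⟩
      rwa [← Pool.Agent.P.MP_bdc337_an.coeff_tay, le_div_iff₀ n0, mul_comm,
        Pool.Agent.P.MP_bdc337_an.LN.coeff_star h fun _ _ => rfl] at k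
    · intro hE
      constructor
      · obtain ⟨f, a1, a2, a3, a4, a5, a6⟩ := Pool.Agent.P.MP_bdc337_an.extremal h0 h1.le N1
        refine ⟨f, ⟨a1, a2, a3, a4, a5⟩, ?_⟩
        rw [← Pool.Agent.P.MP_bdc337_an.coeff_tay, a6, Complex.norm_real,
          Real.norm_of_nonneg (by positivity)]
      · rintro x ⟨f, ⟨a1, a2, a3, a4, a5⟩, rfl⟩
        obtain ⟨q, H, G, h, hf⟩ := Pool.Agent.P.MP_bdc337_an.UO.exists_dat h0 h1 a1 a2 a3 a4 a5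
        rw [← Pool.Agent.P.MP_bdc337_an.coeff_tay, le_div_iff₀ n0, mul_comm,
          Pool.Agent.P.MP_bdc337_an.LN.coeff_star h hf]
        exact hE q H G h
  · obtain ⟨δ, d0, hd⟩ := hB α h0 h1
    obtain ⟨N₀, hN⟩ := Filter.eventually_atTop.1 hd
    refine ⟨δ, d0, N₀ + 2, fun n hn => ?_⟩
    obtain ⟨N, rfl⟩ : ∃ N, n = N + 1 := ⟨n - 1, by omega⟩
    have n0 : (0 : ℝ) < N := by exact_mod_cast (by omega : 0 < N)
    have e : ((N + 1 : ℕ) : ℝ) - 1 = N := by push_cast; ring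
    obtain ⟨q, H, G, h, hc⟩ := hN N (by omega)
    refine ⟨_, h.star, ?_⟩
    rw [e, ← Pool.Agent.P.MP_bdc337_an.coeff_tay, div_le_iff₀ n0, mul_comm _ (N : ℝ),
      Pool.Agent.P.MP_bdc337_an.LN.coeff_star h fun _ _ => rfl]
    exact hc

end Pool.Agent.Results.MP_bdc337_an.LargeNThreshold
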