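import Pool.Agent.P.MP_bdc337_an.SO.V2

set_option autoImplicit false

namespace Pool.Agent.Results.MP_bdc337_an.SharpOrder

/-- `f` is analytic and univalent in the unit disc, `f 0 = 0`, `f' 0 = 1`, and
`|arg (z f'(z) / f(z))| < α π / 2` for `z ≠ 0` in the disc (at `z = 0` the quotient is `1`). -/
def StronglyStarlike (α : ℝ) (f : ℂ → ℂ) : Prop :=
  DifferentiableOn ℂ f (Metric.ball 0 1) ∧ Set.InjOn f (Metric.ball 0 1) ∧ f 0 = 0 ∧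
    deriv f 0 = 1 ∧
    ∀ z ∈ Metric.ball (0 : ℂ) 1, z ≠ 0 → |Complex.arg (z * deriv f z / f z)| < α * Real.pi / 2

/-- `y = max (n ^ (-e)) (e / 2)` with `e = 1 - α`. -/
noncomputable def Y (α : ℝ) (n : ℕ) : ℝ := max ((n : ℝ) ^ (-(1 - α))) ((1 - α) / 2)

/-- `(α / n) 4 ^ (y - 1) exp (2 (1 - y) / e) / Γ (2 y)` with `e = 1 - α`. -/
noncomputable def Phi (α : ℝ) (n : ℕ) : ℝ :=
  α / n * (4 : ℝ) ^ (Y α n - 1) * Real.exp (2 * (1 - Y α n) / (1 - α)) / Real.Gamma (2 * Y α n)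

/-- `(α / π) ∫₀^{2π} |f'(z)| cos (arg (z f'(z) / f(z)) / α) dt` with `z = r e^{it}`. -/
noncomputable def J (α : ℝ) (f : ℂ → ℂ) (r : ℝ) : ℝ :=
  α / Real.pi * ∫ t in (0 : ℝ)..2 * Real.pi, ‖deriv f (circleMap 0 r t)‖ * Real.cos
    (Complex.arg (circleMap 0 r t * deriv f (circleMap 0 r t) / f (circleMap 0 r t)) / α)

/-- `α 4 ^ (e / 2 - 1) exp (2 / e - 1) / Γ e` with `e = 1 - α`. -/
noncomputable def L (α : ℝ) : ℝ :=
  α * (4 : ℝ) ^ ((1 - α) / 2 - 1) * Real.exp (2 / (1 - α) - 1) / Real.Gamma (1 - α)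

/-- the supremum of `J α f r` over the class and `0 < r < 1`, divided by `L α`. -/
noncomputable def Kappa (α : ℝ) : ℝ :=
  sSup {x : ℝ | ∃ (f : ℂ → ℂ) (r : ℝ), StronglyStarlike α f ∧ 0 < r ∧ r < 1 ∧ x = J α f r} / L α

open Pool.Agent.P.MP_bdc337_an in
theorem result : ∃ g : ℝ → ℝ, (∀ s, 1 ≤ g s) ∧ (∃ C : ℝ, ∀ s, g s ≤ C) ∧
    Filter.Tendsto g (nhdsWithin 0 (Set.Ioi 0)) (nhds 1) ∧
    ∀ α : ℝ, 0 < α → α < 1 → (1 / g (1 - α) ≤ Kappa α ∧ Kappa α ≤ g (1 - α)) ∧ ∀ n : ℕ, 2 ≤ n →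
      (∃ f : ℂ → ℂ, StronglyStarlike α f ∧ Kappa α * Phi α n / g (min (1 - α) (1 / n)) ≤
        ‖iteratedDeriv n f 0 / (n.factorial : ℂ)‖) ∧
      ∀ f : ℂ → ℂ, StronglyStarlike α f → ‖iteratedDeriv n f 0 / (n.factorial : ℂ)‖ ≤
        g (min (1 - α) (1 / n)) * (Kappa α * Phi α n) := by
  obtain ⟨g, g1, g2, g3, h⟩ := SO.three_all
  refine ⟨g, g1, g2, g3, fun α h0 h1 => ?_⟩
  have e0 : 0 < 1 - α := by linarith
  have eL : L α = SO.Linf α := by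
    rw [L, SO.Linf, SO.Tf, show 2 * ((1 - α) / 2) = 1 - α by ring, Real.Gamma_add_one e0.ne',
      show 2 * (1 - (1 - α) / 2) / (1 - α) = 2 / (1 - α) - 1 by field_simp]
    field_simp
  have eK : Kappa α = SO.kp α := by
    rw [Kappa, SO.kp, SO.Cs, eL]
    congr 2
    ext x
    constructor
    · rintro ⟨f, r, ⟨a1, a2, a3, a4, a5⟩, r0, r1, rfl⟩
      obtain ⟨q, H, G, D, hf⟩ := UO.exists_dat h0 h1 a1 a2 a3 a4 a5
      exact ⟨q, H, G, r, D, r0, r1, LN.jav_int D hf r0 r1⟩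
    · rintro ⟨q, H, G, r, D, r0, r1, rfl⟩
      exact ⟨_, r, D.star, r0, r1, (LN.jav_int D (fun _ _ => rfl) r0 r1).symm⟩
  rw [eK]
  refine ⟨(h α h0 h1).1, fun n hn => ?_⟩
  have e : Phi α n = SO.Ph α n := by
    have y0 : 0 < Y α n := SO.yy_pos e0 n
    change _ = α / n * (2 * Y α n * SO.Tf (1 - α) (Y α n))
    rw [Phi, SO.Tf, Real.Gamma_add_one (by positivity)]
    field_simp
  obtain ⟨⟨q, H, G, hD, hl⟩, hu⟩ := (h α h0 h1).2 n hn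
  rw [e]
  exact ⟨⟨_, hD.star, by rwa [← coeff_tay]⟩, fun f ⟨a1, a2, a3, a4, a5⟩ => by
    rw [← coeff_tay]
    exact hu f a1 a2 a3 a4 a5⟩

end Pool.Agent.Results.MP_bdc337_an.SharpOrder
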